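import Mathlib
import Pool.Agent.H779.LG.Law
import Pool.Graph.R_pool_sql_team_seeded_ab47071d.Results.MP_52e316_nt.ZeroClustersGLm

/-!
# Central values of twists and the real lines through the origin

Let `π` be a cuspidal representation of `PGL_2` over a number field `F` and `m = 2 [F : ℚ]`. The
L-functions `L(π ⊗ χ_D, s)` (finite parts) are a family of L-functions of degree `m` over `ℚ` in the
sense of `Datum m` with the classical properties `Ok` and `Molteni`, and their analytic conductors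
are at most `A |D|²`. The theorem is about all such families; `N i` is `|D|`.

For `σ > 1/2` let `fewest L σ T r` be the number of `t` with `|t - T| ≤ r` for which `L(σ + it)` lies
on the real line `ℝ u`, for the line which is met least often; `crossings L T r` is the integral of
this number over `1/2 < σ < 2`. So `crossings L T r ≥ X` says that every choice `σ ↦ u(σ)` of lines
is met at least `X` times, on average over `σ`.

* `LargeForces`: if `0 < κ ≤ 1/2` and `|L(1/2 + iT)| ≥ N ^ κ` then `crossings L T κ` is at least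
  `(κ²/4) log N - K`, where `K` depends on the family, on `κ` and on a bound for `|T|` (for example
  `T = 0`: the central value).
* `PointsForce`: if `crossings L T 1` is more than `ε log N + K` then `|L(1/2 + iu)| > N ^ η` for
  some `u` with `|u - T| ≤ W`.
* Hence the central Lindelöf bound follows if `crossings L 0 1 = o(log N)`, and the Lindelöf bound at
  all fixed heights holds if and only if `crossings L T 1 = o(log N)` at all fixed heights.

For primitive Dirichlet characters of modulus `q > 1` all hypotheses are proved, with `N = √q`.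

Proof. The first part averages `log ‖L‖` over the disc of radius `κ` about `1/2 + iT`: by the
functional equation the left half contributes the right half and `4κ/(3π) log N`, and
`∂/∂σ ∫ log ‖L(σ + it)‖ dt` is the change of the argument of the curve `t ↦ L(σ + it)`, which is at
most `π` times one plus the number of points on an arbitrary line. For the second part one line is
chosen which is good for all parts of a fine subdivision, and the zeros of
`conj u · L(σ + iz) - u · conj L(σ + i conj z)` are counted by Jensen's formula.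
-/

open MeasureTheory Set Filter Topology
open Pool.Agent.H779.LG
open Pool.Agent.Results.MP_52e316_nt.ZeroClustersGLm (Datum Molteni)

namespace Pool.Agent.Results.MP_21d687_nt.LinesNearTheCentre

/-- The law for a family of L-functions `L i` with the parameters `N i`. -/
def Law {ι : Type} (L : ι → ℂ → ℂ) (N : ι → ℝ) : Prop :=
  (∀ κ : ℝ, 0 < κ → κ ≤ 1 / 2 → ∀ R : ℝ, ∃ K : ℝ, ∀ (i : ι) (T : ℝ), |T| ≤ R →
    N i ^ κ ≤ ‖L i (1 / 2 + T * Complex.I)‖ →
    ENNReal.ofReal (κ ^ 2 / 4 * Real.log (N i) - K) ≤ crossings (L i) T κ) ∧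
  (∀ ε : ℝ, 0 < ε → ∀ R : ℝ, ∃ η W K : ℝ, 0 < η ∧ ∀ (i : ι) (T : ℝ), |T| ≤ R →
    ENNReal.ofReal (ε * Real.log (N i) + K) < crossings (L i) T 1 →
    ∃ u : ℝ, |u - T| ≤ W ∧ N i ^ η < ‖L i (1 / 2 + u * Complex.I)‖) ∧
  ((∀ ε : ℝ, 0 < ε → ∃ K : ℝ, ∀ i, crossings (L i) 0 1 ≤ ENNReal.ofReal (ε * Real.log (N i) + K)) →
    ∀ β : ℝ, 0 < β → ∃ B : ℝ, ∀ i, ‖L i (1 / 2)‖ ≤ B * N i ^ β) ∧
  ((∀ R β : ℝ, 0 < β → ∃ B : ℝ, ∀ (i : ι) (T : ℝ), |T| ≤ R →
      ‖L i (1 / 2 + T * Complex.I)‖ ≤ B * N i ^ β) ↔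
    ∀ R ε : ℝ, 0 < ε → ∃ K : ℝ, ∀ (i : ι) (T : ℝ), |T| ≤ R →
      crossings (L i) T 1 ≤ ENNReal.ofReal (ε * Real.log (N i) + K))

section proofs

open W587.PL TH809.MZ

theorem law_of {ι : Type} {L : ι → ℂ → ℂ} {X Q : ι → ℝ → ℝ} {N : ι → ℝ} (H : Fam2 L X Q)
    (hl : LowR L X) (hN : ∀ i, 1 ≤ N i) (hXN : ∀ i t, N i ≤ X i t)
    (hX : ∀ R, ∃ K, ∀ i t, |t| ≤ R → Real.log (X i t) ≤ 2 * Real.log (N i) + K)
    (hQ : ∀ R, ∃ K, ∀ i t, |t| ≤ R → Real.log (Q i t) ≤ 2 * Real.log (N i) + K) : Law L N := by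
  refine ⟨largeForces H hl hN hX hQ, pointsForce H hl hN hXN hX, fun h => ?_,
    fun h => few_of_lind H hl hN hXN hX h, fun h R => lind_of_few H hl hN hX hQ (h R)⟩
  have hF : Few L N 0 := fun ε hε => by
    obtain ⟨K, hK⟩ := h ε hε
    refine ⟨K, fun i T hT => ?_⟩
    have : T = 0 := abs_eq_zero.1 (le_antisymm hT (abs_nonneg _))
    rw [this]
    exact hK i
  intro β hβ
  obtain ⟨B, hB⟩ := lind_of_few H hl hN hX hQ hF β hβ
  refine ⟨B, fun i => ?_⟩
  have := hB i 0 (by rw [abs_zero])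
  simpa using this

theorem fam2_mono {ι : Type} {L : ι → ℂ → ℂ} {X X' Q : ι → ℝ → ℝ} (H : Fam2 L X Q)
    (h : ∀ i t, X i t ≤ X' i t)
    (hs : ∃ m : ℝ, 0 ≤ m ∧ ∀ i t u, X' i (t + u) ≤ (1 + |u|) ^ m * X' i t) : Fam2 L X' Q where
  X1 := fun i t => (H.X1 i t).trans (h i t)
  Q1 := H.Q1
  Xs := hs
  Qs := H.Qs
  QX := by
    obtain ⟨B, hB, h1⟩ := H.QX
    exact ⟨B, hB, fun i t => (h1 i t).trans
      (Real.rpow_le_rpow (by linarith [H.X1 i t]) (h i t) hB)⟩
  diff := H.diff
  right := by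
    intro δ hδ
    obtain ⟨B, hB⟩ := H.right δ hδ
    refine ⟨|B|, fun i s hs => (hB i s hs).trans ?_⟩
    have h1 := H.X1 i s.im
    calc B * X i s.im ^ δ ≤ |B| * X i s.im ^ δ :=
          mul_le_mul_of_nonneg_right (le_abs_self B) (Real.rpow_nonneg (by linarith) _)
      _ ≤ _ := mul_le_mul_of_nonneg_left (Real.rpow_le_rpow (by linarith) (h i s.im) hδ.le)
          (abs_nonneg B)
  refl := H.refl
  crude := by
    obtain ⟨C, B, hC, hB, h1⟩ := H.crude
    exact ⟨C, B, hC, hB, fun i s hs => (h1 i s hs).trans (mul_le_mul_of_nonneg_left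
      (Real.rpow_le_rpow (by linarith [H.X1 i s.im]) (h i s.im) hB) hC)⟩

theorem lowR_mono {ι : Type} {L : ι → ℂ → ℂ} {X X' : ι → ℝ → ℝ} (hX1 : ∀ i t, 1 ≤ X i t)
    (H : LowR L X) (h : ∀ i t, X i t ≤ X' i t) : LowR L X' := by
  intro δ hδ
  obtain ⟨B, hB⟩ := H δ hδ
  refine ⟨|B|, fun i s hs => (hB i s hs).trans ?_⟩
  refine mul_le_mul_of_nonneg_right ?_ (norm_nonneg _)
  have h1 := hX1 i s.im
  calc B * X i s.im ^ δ ≤ |B| * X i s.im ^ δ :=
        mul_le_mul_of_nonneg_right (le_abs_self B) (Real.rpow_nonneg (by linarith) _)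
    _ ≤ _ := mul_le_mul_of_nonneg_left (Real.rpow_le_rpow (by linarith) (h i s.im) hδ.le)
        (abs_nonneg B)

theorem law_gl {ι : Type} {m : ℕ} (D : ι → Datum m) (hD : ∀ i, (D i).Ok) (hM : Molteni D)
    (N : ι → ℝ) (A : ℝ) (hN : ∀ i, 1 ≤ N i) (hC : ∀ i, (D i).C ≤ A * N i ^ 2) :
    Law (fun i => (D i).f) N := by
  have H := Results.MP_52e316_nt.ZeroClustersGLm.fam2_gl hD hM
  have hlow : LowR (fun i => (D i).f) (fun i t => (1 + |t|) * (D i).C) :=
    Results.MP_52e316_nt.ZeroClustersGLm.low_gl hD hM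
  set A' : ℝ := max A 1 with hA'
  have hA1 : 1 ≤ A' := le_max_right _ _
  have hN2 : ∀ i, 1 ≤ N i ^ 2 := fun i => one_le_pow₀ (hN i)
  have hC' : ∀ i, (D i).C ≤ A' * N i ^ 2 := fun i =>
    (hC i).trans (mul_le_mul_of_nonneg_right (le_max_left _ _) (by linarith [hN2 i]))
  set X' : ι → ℝ → ℝ := fun i t => (1 + |t|) * (A' * N i ^ 2) with hX'
  have hle : ∀ i t, (1 + |t|) * (D i).C ≤ X' i t := fun i t =>
    mul_le_mul_of_nonneg_left (hC' i) (by positivity)
  have hNN : ∀ i, N i ≤ A' * N i ^ 2 := fun i => by nlinarith [hN i, hN2 i]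
  have hlogA : 0 ≤ Real.log A' := Real.log_nonneg hA1
  have hlogX : ∀ i t R, |t| ≤ R → Real.log (X' i t) ≤ 2 * Real.log (N i) + (Real.log A' + R) := by
    intro i t R ht
    have h1 : 0 < N i := by linarith [hN i]
    have h2 : (0 : ℝ) < 1 + |t| := by positivity
    rw [hX']
    simp only []
    rw [Real.log_mul h2.ne' (by positivity), Real.log_mul (by positivity) (by positivity),
      Real.log_pow]
    have h3 := Real.log_le_sub_one_of_pos h2
    push_cast
    linarith
  refine law_of (X := X') (Q := fun i T => (D i).Q T) (fam2_mono H hle ⟨1, zero_le_one, fun i t u => ?_⟩)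
    (lowR_mono H.X1 hlow hle) hN (fun i t => ?_) (fun R => ⟨Real.log A' + R, fun i t => hlogX i t R⟩)
    (fun R => ⟨m * R + Real.log A', fun i t ht => ?_⟩)
  · rw [Real.rpow_one, hX']
    simp only []
    have h2 : 1 + |t + u| ≤ (1 + |u|) * (1 + |t|) := by
      have := abs_add_le t u
      nlinarith [abs_nonneg t, abs_nonneg u, mul_nonneg (abs_nonneg t) (abs_nonneg u)]
    calc (1 + |t + u|) * (A' * N i ^ 2) ≤ ((1 + |u|) * (1 + |t|)) * (A' * N i ^ 2) :=
          mul_le_mul_of_nonneg_right h2 (by positivity)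
      _ = _ := by ring
  · rw [hX']
    simp only []
    have h1 := hNN i
    have h2 := abs_nonneg t
    nlinarith [hN i]
  · have h1 : 0 < N i := by linarith [hN i]
    have h2 : (0 : ℝ) < 1 + |t| := by positivity
    have h3 := Results.MP_52e316_nt.ZeroClustersGLm.Datum.Q_le (D := D i) t
    have h4 : (D i).Q t ≤ (1 + |t|) ^ (m : ℝ) * (A' * N i ^ 2) :=
      h3.trans (mul_le_mul_of_nonneg_left (hC' i) (by positivity))
    have h5 : 0 < (D i).Q t := by linarith [H.Q1 i t]
    have h6 := Real.log_le_log h5 h4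
    rw [Real.log_mul (by positivity) (by positivity), Real.log_mul (by positivity) (by positivity),
      Real.log_pow, Real.log_rpow h2] at h6
    have h7 := Real.log_le_sub_one_of_pos h2
    have h8 : (m : ℝ) * Real.log (1 + |t|) ≤ m * R :=
      mul_le_mul_of_nonneg_left (by linarith) (Nat.cast_nonneg _)
    push_cast at h6
    linarith

theorem law_dir {ι : Type} (q : ι → ℕ) [∀ i, NeZero (q i)]
    (χ : (i : ι) → DirichletCharacter ℂ (q i)) (h : ∀ i, 1 < q i ∧ (χ i).IsPrimitive) :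
    Law (fun i => DirichletCharacter.LFunction (χ i)) (fun i => √(q i : ℝ)) := by
  have hq1 : ∀ i, (1 : ℝ) ≤ q i := fun i => by exact_mod_cast (h i).1.le
  have hlog : ∀ i t R, |t| ≤ R → Real.log ((q i : ℝ) * (1 + |t|)) ≤
      2 * Real.log (√(q i : ℝ)) + R := by
    intro i t R ht
    have h2 : (0 : ℝ) < 1 + |t| := by positivity
    have h1 := hq1 i
    rw [Real.log_mul (by linarith) h2.ne', Real.log_sqrt (by linarith)]
    have h3 := Real.log_le_sub_one_of_pos h2
    linarith
  refine law_of (TH809.MZ.fam2_dir q χ h) (fun δ hδ => ?_) (fun i => ?_) (fun i t => ?_)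
    (fun R => ⟨R, fun i t => hlog i t R⟩) (fun R => ⟨R, fun i t => hlog i t R⟩)
  · refine ⟨∑' n : ℕ, 1 / (n : ℝ) ^ (1 + δ), fun i s hs => ?_⟩
    have h0 : 0 ≤ ∑' n : ℕ, 1 / (n : ℝ) ^ (1 + δ) := tsum_nonneg fun n => by positivity
    refine (TH809.MZ.low_dir (χ := χ i) hδ hs).trans ?_
    apply mul_le_mul_of_nonneg_right _ (norm_nonneg _)
    apply le_mul_of_one_le_right h0
    apply Real.one_le_rpow _ hδ.le
    nlinarith [abs_nonneg s.im, hq1 i]
  · rw [Real.one_le_sqrt]
    exact hq1 i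
  · have h1 := hq1 i
    have h2 : √(q i : ℝ) ≤ q i := by
      rw [Real.sqrt_le_left (by linarith)]
      nlinarith
    nlinarith [abs_nonneg t]

end proofs

/-- **Central values of twists and the real lines through the origin.** -/
theorem result :
    (∀ (ι : Type) (m : ℕ) (D : ι → Datum m), (∀ i, (D i).Ok) → Molteni D →
      ∀ (N : ι → ℝ) (A : ℝ), (∀ i, 1 ≤ N i) → (∀ i, (D i).C ≤ A * N i ^ 2) →
      Law (fun i => (D i).f) N) ∧
    (∀ (ι : Type) (q : ι → ℕ) [∀ i, NeZero (q i)] (χ : (i : ι) → DirichletCharacter ℂ (q i)),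
      (∀ i, 1 < q i ∧ (χ i).IsPrimitive) →
      Law (fun i => DirichletCharacter.LFunction (χ i)) (fun i => √(q i : ℝ))) :=
  ⟨fun _ _ D hD hM N A hN hC => law_gl D hD hM N A hN hC, fun _ q _ χ h => law_dir q χ h⟩

end Pool.Agent.Results.MP_21d687_nt.LinesNearTheCentre
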