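import Pool.Agent.H572.WL.Fam

/-!
# Large values of L-functions are enclosed by walls of zeros

Let `L(s)` run through the L-functions of degree `m` (no Ramanujan or Riemann hypothesis is assumed), let `C(y)`
be the analytic conductor at height `y`, and fix a small radius `ρ`, a large radius `R` and small `δ > 0`.  Call a
point crowded if there are more than `δ log C(y)` zeros at distance at most `ρ` from it.

(I) Walls.  Every connected set in the disc of radius `R` about `1/2 + iy` that leads from the edge `Re s = 1`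
of the critical strip to the critical line, or to a point where `|L| > C(y)^η`, contains a crowded point.  (So
a curve can only reach a large value, or cross the critical line, by passing through a cluster of zeros.)

(II) If `|L(1/2 + iy)| > C(y)^e` then there is a point `1/2 + κ + i (y + v)`, `κ = κ(e) > 0`, `|v| ≤ A(e)`, which
is enclosed by clusters of zeros: every connected set that joins it to the edge contains a crowded point.
Here `κ` and `A` depend only on `e`, and `ρ`, `R` are arbitrary (`δ` depends on them).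

(III) For every family of L-functions with heights `Y i` the following are equivalent: the Lindelöf hypothesis;
every point `1/2 + κ + i v`, `v` near `Y i`, can be joined to the edge without crowded points (no enclosures);
the theorem of Backlund for the family (few zeros to the right of `1/2 + κ`).

For an irreducible cuspidal representation `π` of `PGL₂` over a number field `F` the L-functions `L(s, π ⊗ χ_D)`
form such a family, of degree `m = 2 [F : ℚ]`, with `Y = 0` and `log C(0) = 2 log |D| + O(1)`.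
-/

set_option autoImplicit false

namespace Pool.Agent.Results.MP_21d687_nt.WallsOfZeros

open Complex Metric
open scoped ComplexConjugate

/-- The analytic data of an L-function of degree `m`: the standard L-function of a cuspidal automorphic
representation `π` of `GL_m` over the rationals other than the trivial representation of `GL_1`, or a product of such
L-functions (for instance `L(s, π ⊗ χ_D)` for `π` on `GL_2` over a number field `F`, with `m = 2 [F : ℚ]`):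
conductor `N`, archimedean parameters `μ j` (gamma factors `Γ_ℝ(s - μ j)`), Satake parameters `α j p` with
`|α j p| ≤ p ^ θ`, root number `ε`, completed L-function `Λ`. -/
structure StandardData {m : ℕ} (θ N : ℝ) (μ : Fin m → ℂ) (α : Fin m → ℕ → ℂ) (ε : ℂ) (Λ : ℂ → ℂ) :
    Prop where
  /-- the conductor -/
  one_le : 1 ≤ N
  /-- the bound of Jacquet and Shalika at infinity -/
  re_le : ∀ j, (μ j).re ≤ 1 / 2
  /-- the bound for the Satake parameters at the primes -/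
  norm_le : ∀ j, ∀ p : ℕ, p.Prime → ‖α j p‖ ≤ (p : ℝ) ^ θ
  /-- the root number -/
  norm_eq : ‖ε‖ = 1
  /-- the completed L-function is entire -/
  entire : Differentiable ℂ Λ
  /-- `Λ(s) = ∏_j Γ_ℝ(s - μ_j) ∏_p ∏_j (1 - α_j(p) p^(-s))⁻¹`, where the product converges
  absolutely because of `norm_le` -/
  euler : ∀ s : ℂ, 1 + θ < s.re → Λ s = (∏ j, Gammaℝ (s - μ j)) *
    ∏' p : Nat.Primes, ∏ j, (1 - α j p * (p : ℂ) ^ (-s))⁻¹
  /-- `Λ(s, π) = ε N^(1/2 - s) Λ(1 - s, π~)` with `Λ(s, π~) = conj Λ(conj s, π)` -/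
  fe : ∀ s : ℂ, Λ s = ε * (N : ℂ) ^ (1 / 2 - s) * conj (Λ (1 - conj s))
  /-- at most exponential growth in vertical strips (in fact `Λ` is bounded there) -/
  growth : ∀ a b : ℝ, ∃ M, ∀ s : ℂ, a ≤ s.re → s.re ≤ b → ‖Λ s‖ ≤ Real.exp (M * (1 + |s.im|))

/-- the L-function `L(s) = Λ(s) / ∏_j Γ_ℝ(s - μ_j)` (the entire function `1 / Γ_ℝ` vanishes at the poles
of `Γ_ℝ`, in agreement with Mathlib's conventions `Γ_ℝ = 0` there and `0⁻¹ = 0`) -/
noncomputable def L {m : ℕ} (μ : Fin m → ℂ) (Λ : ℂ → ℂ) (s : ℂ) : ℂ :=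
  Λ s * ∏ j, (Gammaℝ (s - μ j))⁻¹

/-- the analytic conductor `C(y) = N ∏_j (1 + |iy - μ_j|)` at height `y` -/
noncomputable def conductor {m : ℕ} (N : ℝ) (μ : Fin m → ℂ) (y : ℝ) : ℝ :=
  N * ∏ j, (1 + ‖(y : ℂ) * I - μ j‖)

/-- the zeros of `F` with the property `P` are at most `B` in number, counted with multiplicity -/
def AtMost (F : ℂ → ℂ) (P : ℂ → Prop) (B : ℝ) : Prop :=
  ∀ T : Finset ℂ, (∀ s ∈ T, F s = 0 ∧ P s) → ∑ s ∈ T, (analyticOrderNatAt F s : ℝ) ≤ B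

/-- `p` is not crowded: at most `B` zeros of `F` (with multiplicity) at distance at most `ρ` from `p` -/
def NotCrowded (F : ℂ → ℂ) (ρ B : ℝ) (p : ℂ) : Prop := AtMost F (fun s => ‖s - p‖ ≤ ρ) B

/-- the point `p` at height `Im p` is joined to the edge `Re s = 1` of the critical strip: it belongs to a
connected set without crowded points (radius `ρ`, number `B`) that is contained in the disc of radius `R` about
`1/2 + i Im p` and reaches the half-plane `Re s ≥ 1` -/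
def Joined (F : ℂ → ℂ) (R ρ B : ℝ) (p : ℂ) : Prop :=
  ∃ S : Set ℂ, IsConnected S ∧ S ⊆ closedBall (1 / 2 + (p.im : ℂ) * I) R ∧ p ∈ S ∧ (∃ z ∈ S, 1 ≤ z.re) ∧
    ∀ q ∈ S, NotCrowded F ρ B q

lemma datum {m : ℕ} {θ N : ℝ} {μ : Fin m → ℂ} {α : Fin m → ℕ → ℂ} {ε : ℂ} {Λ : ℂ → ℂ}
    (d : StandardData θ N μ α ε Λ) : H353.F.DatumT θ N μ α ε Λ :=
  ⟨d.one_le, d.re_le, d.norm_le, d.norm_eq, d.entire, d.euler, d.fe, d.growth⟩

lemma Joined.free {Λ : ℂ → ℂ} {y κ R ρ B : ℝ} (h : Joined Λ R ρ B (1 / 2 + (κ : ℂ) + (y : ℂ) * I)) :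
    H572.WL.Free Λ y κ R ρ B := by
  obtain ⟨S, h1, h2, h3, h4, h5⟩ := h
  have e : (1 / 2 + (κ : ℂ) + (y : ℂ) * I).im = y := by simp
  rw [e] at h2
  exact ⟨S, h2, h1.isPreconnected, h3, h4, h5⟩

theorem result :
    -- (I) walls
    (∀ (m : ℕ) (θ R ρ η : ℝ), 1 ≤ m → 0 ≤ θ → θ ≤ 1 / 2 → 0 < ρ → 0 < η → ∃ δ C₀ : ℝ, 0 < δ ∧ 1 < C₀ ∧
      ∀ (N : ℝ) (μ : Fin m → ℂ) (α : Fin m → ℕ → ℂ) (ε : ℂ) (Λ : ℂ → ℂ), StandardData θ N μ α ε Λ →
      (∀ s : ℂ, 1 < s.re → Λ s ≠ 0) → ∀ y : ℝ, C₀ ≤ conductor N μ y →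
      ∀ S : Set ℂ, IsConnected S → S ⊆ closedBall (1 / 2 + (y : ℂ) * I) R → (∃ z ∈ S, 1 ≤ z.re) →
      (∀ q ∈ S, NotCrowded Λ ρ (δ * Real.log (conductor N μ y)) q) →
      ∀ z ∈ S, 1 / 2 < z.re ∧ ‖L μ Λ z‖ ≤ conductor N μ y ^ η) ∧
    -- (II) large values at the critical line are close to enclosed points
    (∀ (m : ℕ) (θ e : ℝ), 1 ≤ m → 0 ≤ θ → θ ≤ 1 / 2 → 0 < e → ∃ κ A : ℝ, 0 < κ ∧ κ < 1 / 2 ∧ 0 < A ∧
      ∀ R ρ : ℝ, 0 < ρ → ∃ δ C₀ : ℝ, 0 < δ ∧ 1 < C₀ ∧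
      ∀ (N : ℝ) (μ : Fin m → ℂ) (α : Fin m → ℕ → ℂ) (ε : ℂ) (Λ : ℂ → ℂ), StandardData θ N μ α ε Λ →
      (∀ s : ℂ, 1 < s.re → Λ s ≠ 0) → ∀ y : ℝ, C₀ ≤ conductor N μ y →
      conductor N μ y ^ e < ‖L μ Λ (1 / 2 + y * I)‖ →
      ∃ v : ℝ, |v - y| ≤ A ∧ ¬ Joined Λ R ρ (δ * Real.log (conductor N μ y)) (1 / 2 + κ + v * I)) ∧
    -- (III) families of L-functions, with heights `Y i`
    (∀ (m : ℕ) (θ : ℝ) (ι : Type) (N : ι → ℝ) (μ : ι → Fin m → ℂ) (α : ι → Fin m → ℕ → ℂ) (ε : ι → ℂ) (Λ : ι → ℂ → ℂ)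
      (Y : ι → ℝ), 1 ≤ m → 0 ≤ θ → θ ≤ 1 / 2 → (∀ i, StandardData θ (N i) (μ i) (α i) (ε i) (Λ i)) →
      (∀ i, ∀ s : ℂ, 1 < s.re → Λ i s ≠ 0) →
      -- the following are equivalent:
      List.TFAE [
        -- the Lindelöf hypothesis for the family, near the heights `Y i`
        ∀ A e : ℝ, 0 < A → 0 < e → ∃ B : ℝ, ∀ i, ∀ v : ℝ, |v - Y i| ≤ A →
          ‖L (μ i) (Λ i) (1 / 2 + v * I)‖ ≤ B * conductor (N i) (μ i) (Y i) ^ e,
        -- there are no enclosures: the points `1/2 + κ + i v` are joined to the edge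
        ∀ A κ : ℝ, 0 < A → 0 < κ → κ < 1 / 2 → ∃ R ρ : ℝ, 0 < ρ ∧ ∀ δ : ℝ, 0 < δ → ∃ C₀ : ℝ, ∀ i,
          C₀ ≤ conductor (N i) (μ i) (Y i) → ∀ v : ℝ, |v - Y i| ≤ A →
          Joined (Λ i) R ρ (δ * Real.log (conductor (N i) (μ i) (Y i))) (1 / 2 + κ + v * I),
        -- almost all zeros are close to the critical line
        ∀ A κ δ : ℝ, 0 < A → 0 < κ → 0 < δ → ∃ C₀ : ℝ, ∀ i, C₀ ≤ conductor (N i) (μ i) (Y i) →
          AtMost (Λ i) (fun s => 1 / 2 + κ ≤ s.re ∧ |s.im - Y i| ≤ A)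
            (δ * Real.log (conductor (N i) (μ i) (Y i)))]) := by
  refine ⟨fun m θ R ρ η hm hθ0 hθ1 hρ hη => ?_, fun m θ e hm hθ0 hθ1 he => ?_,
    fun m θ ι N μ α ε Λ Y hm hθ0 hθ1 hd hne => ?_⟩
  · obtain ⟨δ, C₀, hδ, hC₀, H⟩ := H572.WL.datum_walls m hm hθ0 hθ1 R ρ η hρ hη
    refine ⟨δ, C₀, hδ, hC₀, fun N μ α ε Λ d hz y hy S h1 h2 h3 h4 z hzS => ?_⟩
    have h5 := H N μ α ε Λ (datum d) hz y hy S h2 h1.isPreconnected h4 h3 z hzS
    exact ⟨h5.1, h5.2.1⟩
  · obtain ⟨κ, A, h1, h2, h3, H⟩ := H572.WL.loc_free m hm hθ0 hθ1 he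
    refine ⟨κ, A, h1, h2, h3, fun R ρ hρ => ?_⟩
    obtain ⟨δ, C₀, hδ, hC₀, H1⟩ := H R ρ hρ
    refine ⟨δ, C₀, hδ, hC₀, fun N μ α ε Λ d hz y hy hL => ?_⟩
    by_contra hcon
    push Not at hcon
    have h4 := H1 N μ α ε Λ (datum d) hz y hy fun v hv => (hcon (y + v) (by rwa [add_sub_cancel_left])).free
    exact absurd hL (not_lt.mpr h4)
  · have hD := fun i => datum (hd i)
    tfae_have 2 → 1 := by
      intro H A e hA he
      obtain ⟨B, hB⟩ := H572.WL.fam_free (Y := Y) hm hθ0 hθ1 hD hne (fun κ A hκ0 hκ1 hA => by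
        obtain ⟨R, ρ, hρ, H1⟩ := H A κ hA hκ0 hκ1
        refine ⟨R, ρ, hρ, fun δ hδ => ?_⟩
        obtain ⟨C₀, H2⟩ := H1 δ hδ
        exact ⟨C₀, fun i hi v hv => (H2 i hi (Y i + v) (by rwa [add_sub_cancel_left])).free⟩) he hA
      refine ⟨B, fun i v hv => ?_⟩
      have h1 := hB i (v - Y i) hv
      rw [add_sub_cancel] at h1
      exact h1
    tfae_have 1 → 3 := by
      intro H A κ δ hA hκ hδ
      obtain ⟨C₀, H1⟩ := H572.WL.fam_few_right (Y := Y) hm hθ0 hθ1 hD (fun e A he hA => by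
        obtain ⟨B, hB⟩ := H A e hA he
        exact ⟨B, fun i v hv => hB i (Y i + v) (by rwa [add_sub_cancel_left])⟩) hκ hδ A
      exact ⟨C₀, fun i hi T hT => H1 i hi T fun s hs => ⟨(hT s hs).2.1, (hT s hs).2.2, (hT s hs).1⟩⟩
    tfae_have 3 → 2 := by
      intro H A κ hA hκ0 hκ1
      refine ⟨3, κ / 2, by positivity, fun δ hδ => ?_⟩
      obtain ⟨C₀, H1⟩ := H (A + 1) (κ / 2) δ (by positivity) (by positivity) hδ
      refine ⟨C₀, fun i hi v hv => ?_⟩
      refine ⟨(fun t : ℝ => (1 / 2 + (t : ℂ) + v * I)) '' Set.Icc κ 2, ?_, ?_, ?_, ?_, ?_⟩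
      · refine IsConnected.image (isConnected_Icc (by linarith)) _ (Continuous.continuousOn ?_)
        fun_prop
      · rintro _ ⟨t, ht, rfl⟩
        have e : (1 / 2 + (κ : ℂ) + v * I).im = v := by simp
        rw [e, mem_closedBall, dist_eq_norm, show (1 / 2 + (t : ℂ) + v * I) - (1 / 2 + (v : ℂ) * I) = (t : ℂ) by ring,
          Complex.norm_real, Real.norm_of_nonneg (hκ0.le.trans ht.1)]
        linarith [ht.2]
      · exact ⟨κ, ⟨le_rfl, by linarith⟩, rfl⟩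
      · refine ⟨_, ⟨2, ⟨by linarith, le_rfl⟩, rfl⟩, ?_⟩
        simp
        norm_num
      · rintro _ ⟨t, ht, rfl⟩
        have h1 := H572.WL.fam_right_free (Y := Y) hm hD hκ0 hκ1 hA (δ := δ) (C₀ := C₀) (fun i hi T hT =>
          H1 i hi T fun s hs => ⟨(hT s hs).2.2, (hT s hs).1, (hT s hs).2.1⟩) i hi (v - Y i) hv (1 / 2 + (t : ℂ) + v * I)
          (by simp; linarith [ht.1]) (by simp)
        exact h1
    tfae_finish

end Pool.Agent.Results.MP_21d687_nt.WallsOfZeros
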